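import Mathlib

set_option autoImplicit false
open Filter Topology Finset

namespace Pool.Agent.Results.MP_4255df_an.ThetaLower

/-- The `n`-th Taylor coefficient of `f` at the origin. -/
noncomputable def taylorCoeff (f : ℂ → ℂ) (n : ℕ) : ℂ := iteratedDeriv n f 0 / (n.factorial : ℂ)

/-- The maximum term `m(r)` of `f` at radius `r`. -/
noncomputable def maxTerm (f : ℂ → ℂ) (r : ℝ) : ℝ := ⨆ n : ℕ, ‖taylorCoeff f n‖ * r ^ n

/-- The maximum modulus `M(r,f)` of `f` on the circle of radius `r`. -/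
noncomputable def maxModulus (f : ℂ → ℂ) (r : ℝ) : ℝ :=
  sSup ((fun z => ‖f z‖) '' Metric.sphere (0 : ℂ) r)

/-- `f` is a transcendental entire function: entire and not a polynomial. -/
def TranscendentalEntire (f : ℂ → ℂ) : Prop :=
  Differentiable ℂ f ∧ ¬ ∃ p : Polynomial ℂ, ∀ z, f z = p.eval z

/-- `β_f`, the lower limit of `m(r) / M(r,f)` as `r → ∞`. -/
noncomputable def betaOf (f : ℂ → ℂ) : ℝ :=
  liminf (fun r : ℝ => maxTerm f r / maxModulus f r) atTop

/-- `β`, the supremum of `β_f` over all transcendental entire functions. -/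
noncomputable def beta : ℝ := sSup {b | ∃ f, TranscendentalEntire f ∧ b = betaOf f}

/-! ### Taylor coefficients -/

lemma hasFPS {f : ℂ → ℂ} {a : ℕ → ℂ} (h : ∀ z, HasSum (fun n => a n * z ^ n) (f z)) :
    HasFPowerSeriesAt f (FormalMultilinearSeries.ofScalars ℂ a) 0 := by
  refine ⟨1, ?_, zero_lt_one, ?_⟩
  · have h1 : ((1 : NNReal) : ENNReal) ≤ (FormalMultilinearSeries.ofScalars ℂ a).radius := by
      apply FormalMultilinearSeries.le_radius_of_summable
      simp only [FormalMultilinearSeries.ofScalars_norm, NNReal.coe_one, one_pow, mul_one]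
      have := (h 1).summable.norm
      simpa using this
    simpa using h1
  · intro y _
    have h1 := h y
    simp only [zero_add]
    refine h1.congr_fun ?_ |> fun h => h
    intro n
    simp [smul_eq_mul, mul_comm]

lemma coeff_unique {f : ℂ → ℂ} {a a' : ℕ → ℂ} (h : ∀ z, HasSum (fun n => a n * z ^ n) (f z))
    (h' : ∀ z, HasSum (fun n => a' n * z ^ n) (f z)) : a = a' :=
  FormalMultilinearSeries.ofScalars_series_injective (𝕜 := ℂ) ℂ
    ((hasFPS h).eq_formalMultilinearSeries (hasFPS h'))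

lemma taylorCoeff_eq {f : ℂ → ℂ} (hf : Differentiable ℂ f) {a : ℕ → ℂ}
    (h : ∀ z, HasSum (fun n => a n * z ^ n) (f z)) : taylorCoeff f = a := by
  refine coeff_unique (f := f) (fun z => ?_) h
  have h1 := Complex.hasSum_taylorSeries_of_entire hf 0 z
  refine h1.congr_fun ?_ |> fun h => h
  intro n
  unfold taylorCoeff
  simp only [sub_zero, smul_eq_mul]
  ring

lemma not_poly {f : ℂ → ℂ} {a : ℕ → ℂ} (h : ∀ z, HasSum (fun n => a n * z ^ n) (f z))
    (hinf : ∀ N, ∃ n, N ≤ n ∧ a n ≠ 0) : ¬ ∃ p : Polynomial ℂ, ∀ z, f z = p.eval z := by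
  rintro ⟨p, hp⟩
  have h1 : ∀ z, HasSum (fun n => p.coeff n * z ^ n) (f z) := by
    intro z
    rw [hp z, Polynomial.eval_eq_sum_range]
    refine hasSum_sum_of_ne_finset_zero fun n hn => ?_
    rw [mem_range, not_lt] at hn
    rw [Polynomial.coeff_eq_zero_of_natDegree_lt (by omega), zero_mul]
  have h2 := coeff_unique h h1
  obtain ⟨n, hn, hn0⟩ := hinf (p.natDegree + 1)
  rw [h2] at hn0
  exact hn0 (Polynomial.coeff_eq_zero_of_natDegree_lt (by omega))

/-! ### General facts on `m(r)` and `M(r,f)` -/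

lemma bddAbove_sphere {f : ℂ → ℂ} (hf : Differentiable ℂ f) (r : ℝ) :
    BddAbove ((fun z => ‖f z‖) '' Metric.sphere (0 : ℂ) r) :=
  (isCompact_sphere (0 : ℂ) r).bddAbove_image (hf.continuous.norm.continuousOn)

lemma norm_le_maxModulus {f : ℂ → ℂ} (hf : Differentiable ℂ f) {r : ℝ} {z : ℂ} (hz : ‖z‖ = r) :
    ‖f z‖ ≤ maxModulus f r :=
  le_csSup (bddAbove_sphere hf r) ⟨z, by simpa using hz, rfl⟩

lemma cauchy {f : ℂ → ℂ} (hf : Differentiable ℂ f) {r : ℝ} (hr : 0 < r) (n : ℕ) :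
    ‖taylorCoeff f n‖ * r ^ n ≤ maxModulus f r := by
  have h1 := Complex.norm_iteratedDeriv_le_of_forall_mem_sphere_norm_le (F := ℂ) n (c := 0) (f := f)
    (C := maxModulus f r) hr hf.diffContOnCl (fun z hz => norm_le_maxModulus hf (by simpa using hz))
  unfold taylorCoeff
  rw [norm_div, Complex.norm_natCast]
  have h2 : (0 : ℝ) < (n.factorial : ℝ) := by positivity
  have h3 : 0 < r ^ n := by positivity
  rw [div_mul_eq_mul_div, div_le_iff₀ h2]
  rw [le_div_iff₀ h3] at h1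
  linarith

lemma maxTerm_le {f : ℂ → ℂ} (hf : Differentiable ℂ f) {r : ℝ} (hr : 0 < r) :
    maxTerm f r ≤ maxModulus f r := ciSup_le (cauchy hf hr)

lemma le_maxTerm {f : ℂ → ℂ} (hf : Differentiable ℂ f) {r : ℝ} (hr : 0 < r) (n : ℕ) :
    ‖taylorCoeff f n‖ * r ^ n ≤ maxTerm f r :=
  le_ciSup (f := fun n => ‖taylorCoeff f n‖ * r ^ n)
    ⟨maxModulus f r, by rintro _ ⟨n, rfl⟩; exact cauchy hf hr n⟩ n

lemma maxTerm_nonneg {f : ℂ → ℂ} {r : ℝ} (hr : 0 < r) : 0 ≤ maxTerm f r :=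
  Real.iSup_nonneg fun n => by positivity

lemma maxModulus_nonneg {f : ℂ → ℂ} {r : ℝ} : 0 ≤ maxModulus f r :=
  Real.sSup_nonneg (by rintro _ ⟨z, _, rfl⟩; positivity)

lemma ratio_le_one {f : ℂ → ℂ} (hf : Differentiable ℂ f) {r : ℝ} (hr : 0 < r) :
    maxTerm f r / maxModulus f r ≤ 1 :=
  div_le_one_of_le₀ (maxTerm_le hf hr) maxModulus_nonneg

lemma bdd_le {f : ℂ → ℂ} (hf : Differentiable ℂ f) :
    IsBoundedUnder (· ≤ ·) atTop (fun r : ℝ => maxTerm f r / maxModulus f r) :=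
  ⟨1, by
    rw [eventually_map]
    filter_upwards [eventually_gt_atTop 0] with r hr using ratio_le_one hf hr⟩

lemma bdd_ge (f : ℂ → ℂ) :
    IsBoundedUnder (· ≥ ·) atTop (fun r : ℝ => maxTerm f r / maxModulus f r) :=
  ⟨0, by
    rw [eventually_map]
    filter_upwards [eventually_gt_atTop 0] with r hr
    exact div_nonneg (maxTerm_nonneg hr) maxModulus_nonneg⟩

lemma betaOf_le_one {f : ℂ → ℂ} (hf : Differentiable ℂ f) : betaOf f ≤ 1 := by
  unfold betaOf
  refine liminf_le_of_le (bdd_ge f) ?_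
  intro b hb
  obtain ⟨r, hr, hr0⟩ := (hb.and (eventually_gt_atTop 0)).exists
  exact hr.trans (ratio_le_one hf hr0)

lemma le_betaOf {f : ℂ → ℂ} (hf : Differentiable ℂ f) {c : ℝ}
    (h : ∀ᶠ r in atTop, c ≤ maxTerm f r / maxModulus f r) : c ≤ betaOf f :=
  le_liminf_of_le (bdd_le hf).isCoboundedUnder_ge h

lemma le_beta {f : ℂ → ℂ} (hf : TranscendentalEntire f) : betaOf f ≤ beta := by
  refine le_csSup ⟨1, ?_⟩ ⟨f, hf, rfl⟩
  rintro b ⟨g, hg, rfl⟩
  exact betaOf_le_one hg.1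

/-! ### The polynomial inequality -/

lemma poly_bound (y : ℝ) (h0 : 0 ≤ y) (h4 : y ≤ 4) :
    y * ((1 - 26/135 * (y - 3) + 43576/2460375 * (y^2 - 5*y + 5)
        + 8464192/74733890625 * (y^3 - 7*y^2 + 14*y - 7))^2
      + (28/135 * (y - 3) + 34832/2460375 * (y^2 - 5*y + 5)
        + 3035678464/6053445140625 * (y^3 - 7*y^2 + 14*y - 7))^2) ≤ (170939/100000)^2 := by
  have hR : 0 ≤ (13152009020264779368245373284/114513118970488831329345703125
      - 6230320412458228596470272/4580524758819553253173828125 * y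
      + 22944040995328593886208/36644198070556426025390625 * y^2
      + 4954436651437254656/293153584564451408203125 * y^3
      + 619864990879744/2345228676515611265625 * y^4 : ℝ) := by
    have h2 : 0 ≤ y^2 := by positivity
    have h3 : 0 ≤ y^3 := by positivity
    have h5 : 0 ≤ y^4 := by positivity
    nlinarith
  have hL : 0 ≤ (4186993345588611160186454939780509/1832209903527821301269531250000000000
      - 33060874716712136781233527213639/28628279742622207832336425781250000 * y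
      + 13709860516381311886031158327/71570699356555519580841064453125 * y^2 : ℝ) := by
    nlinarith [sq_nonneg (y - 3)]
  have hP : 0 ≤ (y - 2521/1000)^2 * (4 - y) := by
    have : 0 ≤ 4 - y := by linarith
    positivity
  have := mul_nonneg hP hR
  have key : (170939/100000 : ℝ)^2 - y * ((1 - 26/135 * (y - 3) + 43576/2460375 * (y^2 - 5*y + 5)
        + 8464192/74733890625 * (y^3 - 7*y^2 + 14*y - 7))^2
      + (28/135 * (y - 3) + 34832/2460375 * (y^2 - 5*y + 5)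
        + 3035678464/6053445140625 * (y^3 - 7*y^2 + 14*y - 7))^2)
      = (y - 2521/1000)^2 * (4 - y) * (13152009020264779368245373284/114513118970488831329345703125
      - 6230320412458228596470272/4580524758819553253173828125 * y
      + 22944040995328593886208/36644198070556426025390625 * y^2
      + 4954436651437254656/293153584564451408203125 * y^3
      + 619864990879744/2345228676515611265625 * y^4)
      + (4186993345588611160186454939780509/1832209903527821301269531250000000000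
      - 33060874716712136781233527213639/28628279742622207832336425781250000 * y
      + 13709860516381311886031158327/71570699356555519580841064453125 * y^2) := by
    ring
  linarith

/-- The nome. -/
noncomputable def τ : ℂ := ⟨-26/135, 28/135⟩

lemma τ3 : τ ^ 3 = ⟨43576/2460375, 34832/2460375⟩ := by
  apply Complex.ext <;> simp [τ, pow_succ] <;> norm_num

lemma τ6 : τ ^ 6 = ⟨8464192/74733890625, 3035678464/6053445140625⟩ := by
  have : τ ^ 6 = τ ^ 3 * τ ^ 3 := by ring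
  rw [this, τ3]
  apply Complex.ext <;> simp <;> norm_num

lemma normSq_τ : ‖τ‖ ^ 2 = 292/3645 := by
  rw [← Complex.normSq_eq_norm_sq]
  simp [τ, Complex.normSq_apply]
  norm_num

lemma norm_τ_pos : 0 < ‖τ‖ := by
  have h := normSq_τ
  by_contra hc
  have : ‖τ‖ = 0 := le_antisymm (not_lt.1 hc) (norm_nonneg _)
  rw [this] at h
  norm_num at h

lemma norm_τ_lt : ‖τ‖ < 1 := by
  have h := normSq_τ
  nlinarith [norm_nonneg τ]

lemma τ_ne : τ ≠ 0 := norm_pos_iff.1 norm_τ_pos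

/-- The main part of the theta series on the unit circle. -/
lemma circle_bound (w : ℂ) (hw : ‖w‖ = 1) :
    ‖τ ^ 6 * w⁻¹ ^ 3 + τ ^ 3 * w⁻¹ ^ 2 + τ * w⁻¹ + 1 + w + τ * w ^ 2 + τ ^ 3 * w ^ 3
      + τ ^ 6 * w ^ 4‖ ≤ 170939/100000 := by
  obtain ⟨ζ, hζ⟩ := IsAlgClosed.exists_pow_nat_eq w (n := 2) (by norm_num)
  have hζn : ‖ζ‖ = 1 := by
    have : ‖ζ‖ ^ 2 = 1 := by rw [← norm_pow, hζ, hw]
    nlinarith [norm_nonneg ζ]
  have hζ0 : ζ ≠ 0 := by
    intro h
    rw [h] at hζn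
    simp at hζn
  set ξ : ℂ := ζ⁻¹ with hξ
  have hp : ζ * ξ = 1 := mul_inv_cancel₀ hζ0
  have hwi : w⁻¹ = ξ ^ 2 := by rw [← hζ, hξ, inv_pow]
  have hconj : ξ = (starRingEnd ℂ) ζ := by
    rw [hξ, Complex.inv_def, Complex.normSq_eq_norm_sq, hζn]
    simp
  set x : ℝ := 2 * ζ.re with hx
  have hs : ζ + ξ = (x : ℂ) := by
    rw [hconj, Complex.add_conj]
  have hx2 : x ^ 2 ≤ 4 := by
    have h1 : |ζ.re| ≤ 1 := by rw [← hζn]; exact Complex.abs_re_le_norm ζ
    have h2 := abs_le.1 h1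
    nlinarith
  have e3 : ζ ^ 3 + ξ ^ 3 = (ζ + ξ) * ((ζ + ξ) ^ 2 - 3) := by
    linear_combination (-3 * (ζ + ξ)) * hp
  have e5 : ζ ^ 5 + ξ ^ 5 = (ζ + ξ) * (((ζ + ξ) ^ 2) ^ 2 - 5 * (ζ + ξ) ^ 2 + 5) := by
    linear_combination (-5 * (ζ + ξ) ^ 3 + 5 * (ζ * ξ + 1) * (ζ + ξ)) * hp
  have e7 : ζ ^ 7 + ξ ^ 7 = (ζ + ξ) * (((ζ + ξ) ^ 2) ^ 3 - 7 * ((ζ + ξ) ^ 2) ^ 2
      + 14 * (ζ + ξ) ^ 2 - 7) := by
    linear_combination (-7 * (ζ + ξ) ^ 5 + 14 * (ζ * ξ + 1) * (ζ + ξ) ^ 3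
      - 7 * ((ζ * ξ) ^ 2 + ζ * ξ + 1) * (ζ + ξ)) * hp
  have main : τ ^ 6 * w⁻¹ ^ 3 + τ ^ 3 * w⁻¹ ^ 2 + τ * w⁻¹ + 1 + w + τ * w ^ 2 + τ ^ 3 * w ^ 3
      + τ ^ 6 * w ^ 4 = ζ * ((ζ + ξ) + τ * (ζ ^ 3 + ξ ^ 3) + τ ^ 3 * (ζ ^ 5 + ξ ^ 5)
        + τ ^ 6 * (ζ ^ 7 + ξ ^ 7)) := by
    rw [hwi, ← hζ]
    linear_combination (-1 - τ * ξ ^ 2 - τ ^ 3 * ξ ^ 4 - τ ^ 6 * ξ ^ 6) * hp
  set y : ℝ := x ^ 2 with hy
  have hval : (ζ + ξ) + τ * (ζ ^ 3 + ξ ^ 3) + τ ^ 3 * (ζ ^ 5 + ξ ^ 5) + τ ^ 6 * (ζ ^ 7 + ξ ^ 7)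
      = (x : ℂ) * (⟨1 - 26/135 * (y - 3) + 43576/2460375 * (y^2 - 5*y + 5)
        + 8464192/74733890625 * (y^3 - 7*y^2 + 14*y - 7),
        28/135 * (y - 3) + 34832/2460375 * (y^2 - 5*y + 5)
        + 3035678464/6053445140625 * (y^3 - 7*y^2 + 14*y - 7)⟩ : ℂ) := by
    rw [e3, e5, e7, hs]
    have h1 : ((x : ℂ)) ^ 2 = ((y : ℝ) : ℂ) := by rw [hy]; push_cast; ring
    rw [h1]
    have h2 : (⟨1 - 26/135 * (y - 3) + 43576/2460375 * (y^2 - 5*y + 5)
        + 8464192/74733890625 * (y^3 - 7*y^2 + 14*y - 7),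
        28/135 * (y - 3) + 34832/2460375 * (y^2 - 5*y + 5)
        + 3035678464/6053445140625 * (y^3 - 7*y^2 + 14*y - 7)⟩ : ℂ)
        = 1 + τ * ((y - 3 : ℝ) : ℂ) + τ ^ 3 * ((y ^ 2 - 5 * y + 5 : ℝ) : ℂ)
          + τ ^ 6 * ((y ^ 3 - 7 * y ^ 2 + 14 * y - 7 : ℝ) : ℂ) := by
      rw [τ3, τ6]
      apply Complex.ext <;>
      simp only [τ, Complex.add_re, Complex.add_im, Complex.mul_re, Complex.mul_im,
        Complex.ofReal_re, Complex.ofReal_im, Complex.one_re, Complex.one_im] <;> ring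
    rw [h2]
    push_cast
    ring
  rw [main, norm_mul, hζn, one_mul, hval, norm_mul, Complex.norm_real]
  have hb := poly_bound y (by positivity) hx2
  apply le_of_sq_le_sq ?_ (by norm_num)
  rw [mul_pow, ← Complex.normSq_eq_norm_sq, Complex.normSq_apply, Real.norm_eq_abs, sq_abs]
  refine le_trans (le_of_eq ?_) hb
  rw [← hy]
  ring

/-! ### The series -/

lemma hasFPSOnBall {f : ℂ → ℂ} {a : ℕ → ℂ} (h : ∀ z, HasSum (fun n => a n * z ^ n) (f z))
    {R : NNReal} (hR : 0 < R) :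
    HasFPowerSeriesOnBall f (FormalMultilinearSeries.ofScalars ℂ a) 0 R := by
  refine ⟨?_, by exact_mod_cast hR, ?_⟩
  · apply FormalMultilinearSeries.le_radius_of_summable
    simp only [FormalMultilinearSeries.ofScalars_norm]
    have := (h (R : ℝ)).summable.norm
    simpa using this
  · intro y _
    have h1 := h y
    simp only [zero_add]
    refine h1.congr_fun ?_ |> fun h => h
    intro n
    simp [smul_eq_mul, mul_comm]

lemma differentiable_of_hasSum {f : ℂ → ℂ} {a : ℕ → ℂ}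
    (h : ∀ z, HasSum (fun n => a n * z ^ n) (f z)) : Differentiable ℂ f := by
  intro z
  have h1 := (hasFPSOnBall h (R := ‖z‖₊ + 1) (by positivity)).differentiableOn
  refine h1.differentiableAt ?_
  refine Metric.isOpen_eball.mem_nhds ?_
  simp only [Metric.mem_eball, edist_zero_right]
  rw [enorm_eq_nnnorm]
  exact_mod_cast lt_add_one ‖z‖₊

/-- The coefficients `τ ^ (n choose 2)`. -/
noncomputable def co (n : ℕ) : ℂ := τ ^ (n.choose 2)

/-- The entire function. -/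
noncomputable def F (z : ℂ) : ℂ := ∑' n, co n * z ^ n

lemma co_succ (n : ℕ) : co (n + 1) = τ ^ n * co n := by
  unfold co
  rw [← pow_add, Nat.choose_succ_succ' n 1, Nat.choose_one_right]

lemma co_ne (n : ℕ) : co n ≠ 0 := pow_ne_zero _ τ_ne

lemma term_succ (z : ℂ) (n : ℕ) : co (n + 1) * z ^ (n + 1) = τ ^ n * z * (co n * z ^ n) := by
  rw [co_succ]
  ring

lemma summable_norm_term (z : ℂ) : Summable (fun n => ‖co n * z ^ n‖) := by
  have h1 : Summable (fun n => co n * z ^ n) := by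
    apply summable_of_ratio_norm_eventually_le (r := 1 / 2) (by norm_num)
    have h2 : Tendsto (fun n : ℕ => ‖τ‖ ^ n * ‖z‖) atTop (𝓝 (0 * ‖z‖)) :=
      (tendsto_pow_atTop_nhds_zero_of_lt_one (norm_nonneg _) norm_τ_lt).mul_const _
    rw [zero_mul] at h2
    filter_upwards [h2.eventually_le_const (show (0 : ℝ) < 1 / 2 by norm_num)] with n hn
    rw [term_succ, norm_mul, norm_mul, norm_pow]
    exact mul_le_mul_of_nonneg_right hn (norm_nonneg _)
  exact h1.norm

lemma hasSum_F (z : ℂ) : HasSum (fun n => co n * z ^ n) (F z) :=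
  (summable_norm_term z).of_norm.hasSum

lemma diff_F : Differentiable ℂ F := differentiable_of_hasSum hasSum_F

lemma transc_F : TranscendentalEntire F :=
  ⟨diff_F, not_poly hasSum_F fun N => ⟨N, le_rfl, co_ne N⟩⟩

lemma taylor_F : taylorCoeff F = co := taylorCoeff_eq diff_F hasSum_F

lemma tail_num : 2 * ((‖τ‖ ^ 6 * ‖τ‖ ^ 4) / (1 - ‖τ‖ ^ 4)) ≤ 1 / 100000 := by
  have h := normSq_τ
  have h4 : ‖τ‖ ^ 4 = (292/3645) ^ 2 := by rw [← h]; ring
  have h6 : ‖τ‖ ^ 6 = (292/3645) ^ 3 := by rw [← h]; ring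
  rw [h4, h6]
  norm_num

lemma key (N : ℕ) (z : ℂ) (hz : ‖τ‖ ^ (N + 3) * ‖z‖ = 1) :
    ‖F z‖ ≤ 17094/10000 * ‖co (N + 3) * z ^ (N + 3)‖ := by
  set T : ℕ → ℂ := fun m => co m * z ^ m with hT
  have hTs : ∀ m, T (m + 1) = τ ^ m * z * T m := fun m => term_succ z m
  set w : ℂ := τ ^ (N + 3) * z with hw
  have hwn : ‖w‖ = 1 := by rw [hw, norm_mul, norm_pow, hz]
  have hw0 : w ≠ 0 := by
    intro h
    rw [h] at hwn
    simp at hwn
  set q : ℝ := ‖τ‖ with hq
  have hq0 : 0 < q := norm_τ_pos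
  have hq1 : q < 1 := norm_τ_lt
  have up : ∀ k, T (N + 3 + k + 1) = τ ^ k * w * T (N + 3 + k) := by
    intro k
    rw [hTs, hw]
    ring
  have down : ∀ m j, m + j = N + 3 → T m = τ ^ j * w⁻¹ * T (m + 1) := by
    intro m j hmj
    rw [hTs]
    have : w = τ ^ j * (τ ^ m * z) := by rw [hw, ← hmj]; ring
    have h2 : τ ^ j * w⁻¹ * (τ ^ m * z * T m) = (τ ^ j * (τ ^ m * z)) * w⁻¹ * T m := by ring
    rw [h2, ← this, mul_inv_cancel₀ hw0, one_mul]
  set A : ℝ := ‖T (N + 3)‖ with hA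
  have hA0 : 0 ≤ A := norm_nonneg _
  -- the eight main terms
  have m4 : T (N + 4) = w * T (N + 3) := by simpa using up 0
  have m5 : T (N + 5) = τ * w ^ 2 * T (N + 3) := by
    have := up 1
    rw [show N + 3 + 1 + 1 = N + 5 by ring, show N + 3 + 1 = N + 4 by ring, m4] at this
    rw [this]; ring
  have m6 : T (N + 6) = τ ^ 3 * w ^ 3 * T (N + 3) := by
    have := up 2
    rw [show N + 3 + 2 + 1 = N + 6 by ring, show N + 3 + 2 = N + 5 by ring, m5] at this
    rw [this]; ring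
  have m7 : T (N + 7) = τ ^ 6 * w ^ 4 * T (N + 3) := by
    have := up 3
    rw [show N + 3 + 3 + 1 = N + 7 by ring, show N + 3 + 3 = N + 6 by ring, m6] at this
    rw [this]; ring
  have m2 : T (N + 2) = τ * w⁻¹ * T (N + 3) := by simpa using down (N + 2) 1 (by ring)
  have m1 : T (N + 1) = τ ^ 3 * w⁻¹ ^ 2 * T (N + 3) := by
    have := down (N + 1) 2 (by ring)
    rw [show N + 1 + 1 = N + 2 by ring, m2] at this
    rw [this]; ring
  have m0 : T N = τ ^ 6 * w⁻¹ ^ 3 * T (N + 3) := by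
    have := down N 3 (by ring)
    rw [m1] at this
    rw [this]; ring
  have hmain : ‖∑ i ∈ range 8, T (N + i)‖ ≤ 170939/100000 * A := by
    have : ∑ i ∈ range 8, T (N + i) = (τ ^ 6 * w⁻¹ ^ 3 + τ ^ 3 * w⁻¹ ^ 2 + τ * w⁻¹ + 1 + w
        + τ * w ^ 2 + τ ^ 3 * w ^ 3 + τ ^ 6 * w ^ 4) * T (N + 3) := by
      simp only [sum_range_succ, sum_range_zero, add_zero, m0, m1, m2, m4, m5, m6, m7]
      ring
    rw [this, norm_mul]
    exact mul_le_mul_of_nonneg_right (circle_bound w hwn) hA0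
  -- tails
  have tup : ∀ i, ‖T (N + 7 + i)‖ ≤ q ^ 6 * (q ^ 4) ^ i * A := by
    intro i
    induction i with
    | zero =>
      rw [add_zero, m7, norm_mul, norm_mul, norm_pow, norm_pow, hwn]
      simp [hA, hq]
    | succ i ih =>
      have h1 := up (4 + i)
      rw [show N + 3 + (4 + i) + 1 = N + 7 + (i + 1) by ring,
        show N + 3 + (4 + i) = N + 7 + i by ring] at h1
      rw [h1, norm_mul, norm_mul, norm_pow, hwn, mul_one, ← hq]
      have h2 : q ^ (4 + i) ≤ q ^ 4 := pow_le_pow_of_le_one hq0.le hq1.le (by omega)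
      calc q ^ (4 + i) * ‖T (N + 7 + i)‖ ≤ q ^ 4 * (q ^ 6 * (q ^ 4) ^ i * A) := by gcongr
        _ = _ := by ring
  have tdown : ∀ i m, m + i = N → ‖T m‖ ≤ q ^ 6 * (q ^ 4) ^ i * A := by
    intro i
    induction i with
    | zero =>
      intro m hm
      rw [add_zero] at hm
      rw [hm, m0, norm_mul, norm_mul, norm_pow, norm_pow, norm_inv, hwn]
      simp [hA, hq]
    | succ i ih =>
      intro m hm
      rw [down m (i + 4) (by omega), norm_mul, norm_mul, norm_pow, norm_inv, hwn, inv_one,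
        mul_one, ← hq]
      have h2 : q ^ (i + 4) ≤ q ^ 4 := pow_le_pow_of_le_one hq0.le hq1.le (by omega)
      have h3 := ih (m + 1) (by omega)
      calc q ^ (i + 4) * ‖T (m + 1)‖ ≤ q ^ 4 * (q ^ 6 * (q ^ 4) ^ i * A) := by gcongr
        _ = _ := by ring
  have hq4 : q ^ 4 < 1 := pow_lt_one₀ hq0.le hq1 (by norm_num)
  have hq40 : 0 ≤ q ^ 4 := by positivity
  set E : ℝ := q ^ 6 * q ^ 4 / (1 - q ^ 4) with hE
  have hgs : HasSum (fun i : ℕ => q ^ 6 * q ^ 4 * A * (q ^ 4) ^ i) (E * A) := by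
    have h1 := (hasSum_geometric_of_lt_one hq40 hq4).mul_left (q ^ 6 * q ^ 4 * A)
    have h2 : E * A = q ^ 6 * q ^ 4 * A * (1 - q ^ 4)⁻¹ := by
      rw [hE, div_eq_mul_inv]
      ring
    rw [h2]
    exact h1
  have hlow : ‖∑ m ∈ range N, T m‖ ≤ E * A := by
    refine (norm_sum_le _ _).trans ?_
    rw [← sum_range_reflect]
    refine le_trans ?_ (hgs.summable.sum_le_tsum (range N) (fun i _ => by positivity) |>.trans
      hgs.tsum_eq.le)
    refine sum_le_sum fun i hi => ?_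
    rw [mem_range] at hi
    refine (tdown (i + 1) (N - 1 - i) (by omega)).trans (le_of_eq ?_)
    ring
  have hup : ‖∑' i, T (i + (N + 8))‖ ≤ E * A := by
    refine tsum_of_norm_bounded hgs fun i => ?_
    have h1 := tup (i + 1)
    rw [show N + 7 + (i + 1) = i + (N + 8) by ring] at h1
    refine h1.trans (le_of_eq ?_)
    ring
  have hdec : F z = (∑ m ∈ range N, T m + ∑ i ∈ range 8, T (N + i)) + ∑' i, T (i + (N + 8)) := by
    rw [← sum_range_add, Summable.sum_add_tsum_nat_add (N + 8) (hasSum_F z).summable]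
    rfl
  rw [hdec]
  have hn : 2 * E ≤ 1 / 100000 := tail_num
  calc ‖(∑ m ∈ range N, T m + ∑ i ∈ range 8, T (N + i)) + ∑' i, T (i + (N + 8))‖
      ≤ (E * A + 170939/100000 * A) + E * A :=
        (norm_add_le _ _).trans (add_le_add ((norm_add_le _ _).trans (add_le_add hlow hmain)) hup)
    _ = (2 * E + 170939/100000) * A := by ring
    _ ≤ 17094/10000 * A := mul_le_mul_of_nonneg_right (by linarith) hA0

lemma annulus (N : ℕ) (z : ℂ) (h1 : ‖τ‖⁻¹ ^ (N + 3) ≤ ‖z‖) (h2 : ‖z‖ ≤ ‖τ‖⁻¹ ^ (N + 4)) :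
    ‖F z‖ ≤ 17094/10000 * (‖co (N + 4)‖ * ‖z‖ ^ (N + 4)) := by
  have hq0 := norm_τ_pos
  have outer : ∀ y : ℂ, ‖y‖ = ‖τ‖⁻¹ ^ (N + 4) →
      ‖F y‖ ≤ 17094/10000 * (‖co (N + 4)‖ * ‖y‖ ^ (N + 4)) := by
    intro y hy
    have := key (N + 1) y (by
      rw [hy, inv_pow, show N + 1 + 3 = N + 4 by ring]
      exact mul_inv_cancel₀ (by positivity))
    rwa [show N + 1 + 3 = N + 4 by ring, norm_mul, norm_pow] at this
  have inner : ∀ y : ℂ, ‖y‖ = ‖τ‖⁻¹ ^ (N + 3) →
      ‖F y‖ ≤ 17094/10000 * (‖co (N + 4)‖ * ‖y‖ ^ (N + 4)) := by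
    intro y hy
    have h3 : ‖τ‖ ^ (N + 3) * ‖y‖ = 1 := by
      rw [hy, inv_pow]
      exact mul_inv_cancel₀ (by positivity)
    have := key N y h3
    rw [norm_mul, norm_pow] at this
    have hco : ‖co (N + 4)‖ = ‖τ‖ ^ (N + 3) * ‖co (N + 3)‖ := by
      have := co_succ (N + 3)
      rw [show N + 4 = N + 3 + 1 from rfl, this, norm_mul, norm_pow]
    have h5 : ‖co (N + 4)‖ * ‖y‖ ^ (N + 4) = ‖co (N + 3)‖ * ‖y‖ ^ (N + 3) := by
      rw [hco]
      have : ‖τ‖ ^ (N + 3) * ‖co (N + 3)‖ * ‖y‖ ^ (N + 4)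
        = (‖τ‖ ^ (N + 3) * ‖y‖) * (‖co (N + 3)‖ * ‖y‖ ^ (N + 3)) := by ring
      rw [this, h3, one_mul]
    rw [h5]
    exact this
  rcases eq_or_lt_of_le h1 with h1' | h1'
  · exact inner z h1'.symm
  rcases eq_or_lt_of_le h2 with h2' | h2'
  · exact outer z h2'
  set a : ℝ := ‖τ‖⁻¹ ^ (N + 3) with ha
  set b : ℝ := ‖τ‖⁻¹ ^ (N + 4) with hb
  have ha0 : 0 < a := by rw [ha]; positivity
  set U : Set ℂ := {y | a < ‖y‖ ∧ ‖y‖ < b} with hU
  have hUo : IsOpen U := (isOpen_lt continuous_const continuous_norm).inter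
    (isOpen_lt continuous_norm continuous_const)
  have hcl : closure U ⊆ {y | a ≤ ‖y‖ ∧ ‖y‖ ≤ b} :=
    closure_minimal (fun y hy => ⟨hy.1.le, hy.2.le⟩)
      ((isClosed_le continuous_const continuous_norm).inter
        (isClosed_le continuous_norm continuous_const))
  have hbdd : Bornology.IsBounded U := by
    refine (Metric.isBounded_ball (x := (0 : ℂ)) (r := b)).subset fun y hy => ?_
    simpa using hy.2
  have hne : ∀ y ∈ closure U, y ≠ 0 := by
    intro y hy h0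
    have := (hcl hy).1
    rw [h0, norm_zero] at this
    linarith
  have hd : DiffContOnCl ℂ (fun y => F y / y ^ (N + 4)) U := by
    apply DifferentiableOn.diffContOnCl
    intro y hy
    exact ((diff_F y).div ((differentiable_id.pow (N + 4)) y)
      (pow_ne_zero _ (hne y hy))).differentiableWithinAt
  have hfr : ∀ y ∈ frontier U, ‖F y / y ^ (N + 4)‖ ≤ 17094/10000 * ‖co (N + 4)‖ := by
    intro y hy
    rw [hUo.frontier_eq] at hy
    have hyc := hcl hy.1
    have hy0 : 0 < ‖y‖ := lt_of_lt_of_le ha0 hyc.1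
    rw [norm_div, norm_pow, div_le_iff₀ (by positivity), mul_assoc]
    rcases eq_or_lt_of_le hyc.1 with h3 | h3
    · exact inner y h3.symm
    rcases eq_or_lt_of_le hyc.2 with h4 | h4
    · exact outer y h4
    exact absurd ⟨h3, h4⟩ hy.2
  have hz : z ∈ closure U := subset_closure ⟨h1', h2'⟩
  have := Complex.norm_le_of_forall_mem_frontier_norm_le hbdd hd hfr hz
  have hz0 : 0 < ‖z‖ := lt_trans ha0 h1'
  rwa [norm_div, norm_pow, div_le_iff₀ (by positivity), mul_assoc] at this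

lemma maxModulus_pos {r : ℝ} (hr : 0 < r) : 0 < maxModulus F r := by
  have h := cauchy diff_F hr 0
  rw [taylor_F] at h
  have : ‖co 0‖ * r ^ 0 = 1 := by simp [co]
  rw [this] at h
  linarith

lemma ratio_F : ∀ᶠ r in atTop, (10000/17094 : ℝ) ≤ maxTerm F r / maxModulus F r := by
  have hq0 := norm_τ_pos
  have hq1 := norm_τ_lt
  have hy1 : 1 < ‖τ‖⁻¹ := (one_lt_inv₀ hq0).2 hq1
  filter_upwards [eventually_ge_atTop (max 1 (‖τ‖⁻¹ ^ 3))] with r hr
  have hr1 : 1 ≤ r := (le_max_left _ _).trans hr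
  have hr3 : ‖τ‖⁻¹ ^ 3 ≤ r := (le_max_right _ _).trans hr
  have hr0 : 0 < r := by linarith
  obtain ⟨n, hn1, hn2⟩ := exists_nat_pow_near hr1 hy1
  have hn3 : 3 < n + 1 := by
    by_contra hc
    have := pow_le_pow_right₀ hy1.le (not_lt.1 hc)
    linarith
  obtain ⟨N, rfl⟩ : ∃ N, n = N + 3 := ⟨n - 3, by omega⟩
  have hM : maxModulus F r ≤ 17094/10000 * (‖co (N + 4)‖ * r ^ (N + 4)) := by
    apply csSup_le
    · obtain ⟨z, hz⟩ := (NormedSpace.sphere_nonempty (x := (0 : ℂ)) (r := r)).2 hr0.le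
      exact ⟨_, z, hz, rfl⟩
    · rintro _ ⟨z, hz, rfl⟩
      have hz' : ‖z‖ = r := by simpa using hz
      have := annulus N z (by rw [hz']; exact hn1) (by rw [hz']; exact hn2.le)
      rwa [hz'] at this
  have hm := le_maxTerm diff_F hr0 (N + 4)
  rw [taylor_F] at hm
  rw [le_div_iff₀ (maxModulus_pos hr0)]
  linarith

/-- There is a transcendental entire function with `β_f > 0.585`; hence `β > 0.585`. -/
theorem result : (∃ f : ℂ → ℂ, TranscendentalEntire f ∧ (117/200 : ℝ) < betaOf f) ∧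
    (117/200 : ℝ) < beta := by
  have h1 : (10000/17094 : ℝ) ≤ betaOf F := le_betaOf diff_F ratio_F
  have h2 : (117/200 : ℝ) < betaOf F := lt_of_lt_of_le (by norm_num) h1
  exact ⟨⟨F, transc_F, h2⟩, h2.trans_le (le_beta transc_F)⟩

end Pool.Agent.Results.MP_4255df_an.ThetaLower
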